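import Pool.Agent.IB.Body2

/-!
A convex body in `ℝ⁴`, not centrally symmetric about the origin, whose polar intersection body is
homothetic to its central symmetral.
-/

namespace Pool.Agent.Results.MP_7a8df2_gt.NonCentered

open Set MeasureTheory
open scoped RealInnerProductSpace Pointwise
open Pool.Agent.IB

/-- Euclidean `n`-space. -/
abbrev E (n : ℕ) : Type := EuclideanSpace ℝ (Fin n)

/-- Lebesgue measure of a subset of a finite dimensional real inner product space. -/
noncomputable def leb {F : Type} [NormedAddCommGroup F] [InnerProductSpace ℝ F]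
    [FiniteDimensional ℝ F] [MeasurableSpace F] [BorelSpace F] (S : Set F) : ENNReal := volume S

/-- Lebesgue measure, in the linear subspace `H`, of `H ∩ S`. -/
noncomputable def subVol {F : Type} [NormedAddCommGroup F] [InnerProductSpace ℝ F]
    [FiniteDimensional ℝ F] [MeasurableSpace F] [BorelSpace F] (H : Submodule ℝ F) (S : Set F) :
    ENNReal := leb {x : H | (x : F) ∈ S}

/-- `λ_{n-1}(K ∩ u^⊥)`: the Lebesgue measure, in the hyperplane `u^⊥`, of the section of `K`. -/
noncomputable def sectionVol {n : ℕ} (K : Set (E n)) (u : E n) : ℝ :=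
  (subVol (ℝ ∙ u)ᗮ K).toReal

/-- The intersection body `IK`: the star body with radial function
`u ↦ λ_{n-1}(K ∩ u^⊥)` on the unit sphere. -/
def intersectionBody {n : ℕ} (K : Set (E n)) : Set (E n) :=
  {x | ∃ u : E n, ‖u‖ = 1 ∧ ∃ t : ℝ, 0 ≤ t ∧ t ≤ sectionVol K u ∧ x = t • u}

/-- The polar set `A^* = {x : x · y ≤ 1 for all y ∈ A}`. -/
def polarSet {n : ℕ} (A : Set (E n)) : Set (E n) := {x | ∀ y ∈ A, ⟪x, y⟫ ≤ 1}

/-- The central symmetral `ΔK = (K + (-K)) / 2`. -/
def centralSymmetral {n : ℕ} (K : Set (E n)) : Set (E n) := (1/2 : ℝ) • (K + -K)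

/-- `A = x + r B` for some vector `x` and some `r > 0`. -/
def Homothetic {n : ℕ} (A B : Set (E n)) : Prop :=
  ∃ (x : E n) (r : ℝ), 0 < r ∧ A = (fun y => x + r • y) '' B

/-- A convex body: a compact convex set with nonempty interior. -/
def IsConvexBody {n : ℕ} (K : Set (E n)) : Prop :=
  IsCompact K ∧ Convex ℝ K ∧ (interior K).Nonempty

/-- A centered ellipsoid: an invertible linear image of the closed unit ball. -/
def IsCenteredEllipsoid {n : ℕ} (K : Set (E n)) : Prop :=
  ∃ φ : E n ≃L[ℝ] E n, K = φ '' Metric.closedBall 0 1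

variable {w w' : ℝ → ℝ}

lemma arcsin_yc_neg (u : E4) : Real.arcsin (yc (-u)) = -Real.arcsin (yc u) := by
  have : yc (-u) = - yc u := by unfold yc; rw [inner_neg_right]
  rw [this, Real.arcsin_neg]

lemma hbar_pos (h : Prof w w') (u : E4) : 0 < hbar w u := by
  have h1 := (abs_le.1 (h.abs_le (Real.arcsin (yc u)))).1
  have h2 := (abs_le.1 (h.abs_le (-Real.arcsin (yc u)))).1
  unfold hbar
  linarith

/-- Support description of the central symmetral. -/
lemma mem_symmetral_iff (h : Prof w w') (z : E4) :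
    z ∈ centralSymmetral (body w) ↔ ∀ u : E4, ‖u‖ = 1 → ⟪z, u⟫ ≤ hbar w u := by
  constructor
  · rintro ⟨_, ⟨x, hx, y, hy, rfl⟩, rfl⟩ u hu
    have h1 := hx u hu
    have hu' : ‖-u‖ = 1 := by rw [norm_neg, hu]
    have h2 := hy (-u) hu'
    rw [arcsin_yc_neg] at h2
    have h3 : ⟪-y, -u⟫ = ⟪y, u⟫ := by rw [inner_neg_neg]
    rw [h3] at h2
    show ⟪(1/2 : ℝ) • (x + y), u⟫ ≤ hbar w u
    rw [inner_smul_left, inner_add_left]
    simp only [conj_trivial]
    unfold hbar
    linarith
  · intro hz
    by_contra hnot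
    have hcl : IsClosed (centralSymmetral (body w)) := by
      have hc := isCompact_body h
      exact ((hc.add hc.neg).smul (1/2 : ℝ)).isClosed
    have hcv : Convex ℝ (centralSymmetral (body w)) := by
      have hc := convex_body w
      exact (hc.add hc.neg).smul (1/2 : ℝ)
    obtain ⟨f, c, hf1, hf2⟩ := geometric_hahn_banach_closed_point hcv hcl hnot
    set g := (InnerProductSpace.toDual ℝ E4).symm f with hg
    have hfg : ∀ x, f x = ⟪g, x⟫ := fun x => by
      rw [hg, InnerProductSpace.toDual_symm_apply]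
    -- `g` is nonzero
    have h0mem : (0 : E4) ∈ centralSymmetral (body w) := by
      have h0 : (0 : E4) ∈ body w := interior_subset (zero_mem_interior h)
      refine ⟨0, ⟨0, h0, 0, ?_, by simp⟩, by simp⟩
      simpa using h0
    have hc0 : 0 < c := by
      have := hf1 0 h0mem
      simpa using this
    have hg0 : g ≠ 0 := by
      intro h0
      rw [hfg z, h0, inner_zero_left] at hf2
      linarith
    have hgn : 0 < ‖g‖ := norm_pos_iff.2 hg0
    set u : E4 := ‖g‖⁻¹ • g with hu
    have hu1 : ‖u‖ = 1 := by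
      rw [hu, norm_smul, norm_inv, norm_norm]
      exact inv_mul_cancel₀ hgn.ne'
    have hu1' : ‖-u‖ = 1 := by rw [norm_neg, hu1]
    have hgu : g = ‖g‖ • u := by
      rw [hu, smul_smul, mul_inv_cancel₀ hgn.ne', one_smul]
    obtain ⟨x, hx, hxu⟩ := exists_support h hu1
    obtain ⟨y, hy, hyu⟩ := exists_support h hu1'
    rw [arcsin_yc_neg] at hyu
    have hmem : (1/2 : ℝ) • (x + -y) ∈ centralSymmetral (body w) :=
      ⟨x + -y, ⟨x, hx, -y, by simpa using hy, rfl⟩, rfl⟩
    have h1 := hf1 _ hmem
    have h2 := hz u hu1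
    rw [hfg, hgu, inner_smul_left] at h1 hf2
    simp only [conj_trivial] at h1 hf2
    have h3 : ⟪u, (1/2 : ℝ) • (x + -y)⟫ = hbar w u := by
      rw [inner_smul_right, inner_add_right, inner_neg_right, real_inner_comm, hxu]
      rw [inner_neg_right, real_inner_comm] at hyu
      unfold hbar
      linarith
    rw [h3] at h1
    have h4 := mul_le_mul_of_nonneg_left h2 hgn.le
    rw [real_inner_comm] at h4
    linarith

/-- Description of the polar intersection body. -/
lemma mem_polar_iff (h : Prof w w') (x : E4) :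
    x ∈ polarSet (intersectionBody (body w)) ↔
      ∀ u : E4, ‖u‖ = 1 → ⟪(4 * Real.pi / 3) • x, u⟫ ≤ hbar w u := by
  have hV : ∀ u : E4, ‖u‖ = 1 → sectionVol (body w) u * hbar w u = 4 * Real.pi / 3 :=
    fun u hu => secVol_mul_hbar h hu
  have hpi := Real.pi_pos
  have hVpos : ∀ u : E4, ‖u‖ = 1 → 0 < sectionVol (body w) u := by
    intro u hu
    have h1 := hV u hu
    have h2 := hbar_pos h u
    by_contra hle
    push Not at hle
    nlinarith
  constructor
  · intro hx u hu
    have h1 := hx (sectionVol (body w) u • u)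
      ⟨u, hu, sectionVol (body w) u, (hVpos u hu).le, le_rfl, rfl⟩
    rw [inner_smul_right] at h1
    rw [inner_smul_left]
    simp only [conj_trivial]
    rw [← hV u hu]
    have h2 := mul_le_mul_of_nonneg_left h1 (hbar_pos h u).le
    linarith
  · rintro hx _ ⟨u, hu, t, ht0, ht, rfl⟩
    have h1 := hx u hu
    rw [inner_smul_left] at h1
    simp only [conj_trivial] at h1
    rw [← hV u hu] at h1
    have h2 : sectionVol (body w) u * ⟪x, u⟫ ≤ 1 := by
      have h3 : hbar w u * (sectionVol (body w) u * ⟪x, u⟫) ≤ hbar w u * 1 := by linarith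
      exact le_of_mul_le_mul_left h3 (hbar_pos h u)
    rw [inner_smul_right]
    rcases le_or_gt ⟪x, u⟫ 0 with h4 | h4
    · have := mul_nonpos_of_nonneg_of_nonpos ht0 h4
      linarith
    · have := mul_le_mul_of_nonneg_right ht h4.le
      linarith

lemma body_ne_neg (h : Prof w w') (hne : ∃ α, w α ≠ w (-α)) : body w ≠ -body w := by
  intro heq
  obtain ⟨α, hα⟩ := hne
  have hpi := Real.pi_pos
  have hα' : |α| < Real.pi / 2 := by
    by_contra hge
    push Not at hge
    apply hα
    rw [h.out α (Or.inr (by linarith)), h.out (-α) (Or.inr (by rw [abs_neg]; linarith))]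
  have hα2 := abs_lt.1 hα'
  have key : ∀ β, -(Real.pi / 2) ≤ β → β ≤ Real.pi / 2 → w β ≤ w (-β) := by
    intro β h1 h2
    have hv : ‖Real.cos β • n0 + Real.sin β • ax‖ = 1 := by
      have := norm_comb norm_n0 inner_ax_n0 (Real.cos β) (Real.sin β)
      rw [Real.cos_sq_add_sin_sq] at this
      have h0 := norm_nonneg (Real.cos β • n0 + Real.sin β • ax)
      nlinarith
    set u : E4 := Real.cos β • n0 + Real.sin β • ax with hu
    have hyu : yc u = Real.sin β := by rw [hu]; exact yc_comb inner_ax_n0 _ _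
    obtain ⟨x, hx, hxu⟩ := exists_support h hv
    have hx' : -x ∈ body w := by
      rw [heq] at hx
      exact hx
    have hv' : ‖-u‖ = 1 := by rw [norm_neg, hv]
    have h3 := hx' (-u) hv'
    rw [inner_neg_neg, arcsin_yc_neg, hxu, hyu, Real.arcsin_sin h1 h2] at h3
    linarith
  have h1 := key α (by linarith) (by linarith)
  have h2 := key (-α) (by linarith) (by linarith)
  rw [neg_neg] at h2
  exact hα (le_antisymm h1 h2)

/-- There is a convex body in `ℝ⁴` with the origin in its interior which is not a centered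
ellipsoid (indeed is not symmetric about the origin) and whose polar intersection body is
homothetic to its central symmetral. -/
theorem result : ∃ K : Set (E 4), IsConvexBody K ∧ 0 ∈ interior K ∧
    (∀ u : E 4, ‖u‖ = 1 → 0 < sectionVol K u) ∧
    Homothetic (polarSet (intersectionBody K)) (centralSymmetral K) ∧
    K ≠ -K ∧ ¬ IsCenteredEllipsoid K := by
  obtain ⟨w, w', hc, hout, hkey, hne⟩ := exists_profile
  have h : Prof w w' := ⟨hc, hout, hkey⟩
  have hpi := Real.pi_pos
  refine ⟨body w, ⟨isCompact_body h, convex_body w, ⟨0, zero_mem_interior h⟩⟩,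
    zero_mem_interior h, ?_, ⟨0, (4 * Real.pi / 3)⁻¹, by positivity, ?_⟩, body_ne_neg h hne, ?_⟩
  · intro u hu
    have h1 : sectionVol (body w) u * hbar w u = 4 * Real.pi / 3 := secVol_mul_hbar h hu
    have h2 := hbar_pos h u
    by_contra hle
    push Not at hle
    nlinarith
  · ext x
    rw [mem_polar_iff h, ← mem_symmetral_iff h]
    constructor
    · intro hx
      refine ⟨_, hx, ?_⟩
      show 0 + (4 * Real.pi / 3)⁻¹ • ((4 * Real.pi / 3) • x) = x
      rw [zero_add, smul_smul, inv_mul_cancel₀ (by positivity), one_smul]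
    · rintro ⟨y, hy, rfl⟩
      show (4 * Real.pi / 3) • (0 + (4 * Real.pi / 3)⁻¹ • y) ∈ _
      rw [zero_add, smul_smul, mul_inv_cancel₀ (by positivity), one_smul]
      exact hy
  · rintro ⟨φ, hφ⟩
    apply body_ne_neg h hne
    rw [hφ]
    ext x
    constructor
    · rintro ⟨y, hy, rfl⟩
      refine ⟨-y, by simpa using hy, ?_⟩
      rw [map_neg]
    · rintro ⟨y, hy, hyx⟩
      refine ⟨-y, by simpa using hy, ?_⟩
      rw [map_neg, hyx, neg_neg]

end Pool.Agent.Results.MP_7a8df2_gt.NonCentered
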